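import Pool.Agent.Run7.h747.AllP
import Pool.Agent.Run7.h747.Lnc

/-!
# Counting all cycles of a graph: base below two on large classes of graphs

One deterministic word-RAM program computes, for every graph `G` on `n ≥ 3` vertices, the number
`c(G)` of all cycles of `G`. It always takes time `2^n poly(n)`. It takes time `b^n poly(n)` with `b < 2`

* on all graphs with at least `δ n` pairwise disjoint pairs of vertices `u, v` whose neighbourhoods
  differ in at most `d` vertices other than `u, v` (`b` depends on `d` and `δ > 0`);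
* on all graphs in which every set `A` of vertices has at most `q (|A| + 1)` different traces
  `N(v) ∩ A` (`b` depends on `q`).
-/

set_option autoImplicit false

namespace Pool.Agent.Results.MP_b35d54_lc.AllCyclesSparseTraces

open Pool.Agent.H588R2 Pool.Agent.TH687.HL Run7.h747

open Classical in
/-- Initial configuration of the word RAM. Register `0` holds the number `n` of vertices, the
other registers are zero. The memory holds the adjacency matrix of `G` row by row (cell
`u * n + v` is `1` if `u` and `v` are adjacent, else `0`), followed by zeros. -/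
noncomputable def inputConfig {n : ℕ} (G : SimpleGraph (Fin n)) : Config where
  pc := 0
  st :=
    { reg := fun i => if i = 0 then n else 0
      mem := fun x =>
        if h : x / n < n ∧ x % n < n then
          (if G.Adj ⟨x / n, h.1⟩ ⟨x % n, h.2⟩ then 1 else 0)
        else 0 }

open Classical in
/-- The number of cycles of `G`: for each `l` with `3 ≤ l ≤ n` the number of the subgraphs of `G`
that are cycles of length `l`. -/
noncomputable def cycles {n : ℕ} (G : SimpleGraph (Fin n)) : ℕ :=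
  ∑ l ∈ Finset.Icc 3 n, G.copyCount (SimpleGraph.cycleGraph l)

/-- The program `P`, started on the input `G`, with words of `c (n + 1) (⌊log₂ (n + 1)⌋ + 1)`
bits, halts after at most `T` steps, and its output is the number of cycles of `G`. -/
def CountsAllCycles (P : List Instr) (c : ℕ) {n : ℕ} (G : SimpleGraph (Fin n)) (T : ℝ) : Prop :=
  HaltsWithin (c * ((n + 1) * (Nat.log 2 (n + 1) + 1))) P (inputConfig G) T (cycles G)

open Classical in
/-- The number of vertices other than `u`, `v` that are adjacent to exactly one of `u`, `v`. -/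
noncomputable def diff {n : ℕ} (G : SimpleGraph (Fin n)) (u v : Fin n) : ℕ :=
  (Finset.univ.filter (fun x => x ≠ u ∧ x ≠ v ∧ ¬ (G.Adj u x ↔ G.Adj v x))).card

/-- `G` has at least `δ n` pairwise disjoint pairs `{u, v}`, `u ≠ v`, of vertices with
`diff G u v ≤ d`. -/
def ManyNearTwins {n : ℕ} (G : SimpleGraph (Fin n)) (d : ℕ) (δ : ℝ) : Prop :=
  ∃ M : Finset (Fin n × Fin n), δ * n ≤ M.card ∧
    (∀ p ∈ M, p.1 ≠ p.2 ∧ diff G p.1 p.2 ≤ d) ∧
    ∀ p ∈ M, ∀ q ∈ M, p ≠ q → p.1 ≠ q.1 ∧ p.1 ≠ q.2 ∧ p.2 ≠ q.1 ∧ p.2 ≠ q.2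

open Classical in
/-- Linear neighbourhood complexity: for every set `A` of vertices, there are at most
`q (|A| + 1)` different sets `{x ∈ A | v adjacent to x}`, where `v` runs over all vertices. -/
def LinearTraces {n : ℕ} (G : SimpleGraph (Fin n)) (q : ℕ) : Prop :=
  ∀ A : Finset (Fin n),
    (Finset.univ.image (fun v => A.filter (fun x => G.Adj v x))).card ≤ q * (A.card + 1)

theorem counts {n GB : ℕ} (G : SimpleGraph (Fin n)) (hn : 3 ≤ n)
    (hGB : ∀ mate, Greedy G mate → ∀ sv av, sv < av → ∀ (j : ℕ) (w : Fin n)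
      (S : Finset (Finset (Fin n))),
      (∀ X ∈ S, Cc G sv av mate j w X ≠ 0) → S.card ≤ GB)
    (hG1 : 1 ≤ GB) (T : ℝ) (hT : 5000 * (n : ℝ) ^ 7 * GB ≤ T) :
    CountsAllCycles (mainAll.comp.compile 0) 8 G T := by
  classical
  refine halts_all G hn (inputConfig G) rfl rfl ?_ ?_ hGB hG1 T hT
  · intro u v
    have h1 : ((u : ℕ) * n + v) / n = u := by
      rw [Nat.mul_comm, Nat.mul_add_div (by omega), Nat.div_eq_of_lt v.2, Nat.add_zero]
    have h2 : ((u : ℕ) * n + v) % n = v := by
      rw [Nat.mul_comm, Nat.mul_add_mod, Nat.mod_eq_of_lt v.2]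
    simp only [inputConfig, h1, h2]
    rw [dif_pos ⟨u.2, v.2⟩]
  · intro a ha
    have h1 : ¬ a / n < n := by
      rw [Nat.div_lt_iff_lt_mul (by omega)]
      omega
    simp only [inputConfig]
    rw [dif_neg (fun h => h1 h.1)]

theorem near {d : ℕ} {δ : ℝ} (hδ : 0 < δ) : ∃ b : ℝ, 0 < b ∧ b < 2 ∧
      ∀ (n : ℕ) (G : SimpleGraph (Fin n)), 3 ≤ n →
        ∀ M : Finset (Fin n × Fin n), Pairs G d M → δ * n ≤ M.card →
        CountsAllCycles (mainAll.comp.compile 0) 8 G (50000 * b ^ n * ((n : ℝ) + 1) ^ 7) := by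
  classical
  obtain ⟨b, hb0, hb2, hb⟩ := greedy_count d hδ
  refine ⟨max b 1, by positivity, max_lt hb2 (by norm_num), ?_⟩
  intro n G hn M hM hM1
  have h1b : (1 : ℝ) ≤ (max b 1) ^ n := one_le_pow₀ (le_max_right _ _)
  have hbb : b ^ n ≤ (max b 1) ^ n := pow_le_pow_left₀ hb0.le (le_max_left _ _) n
  refine counts (GB := ⌊8 * b ^ n⌋₊ + 1) G hn ?_ (by omega) _ ?_
  · intro mate hg sv av hsa j w S hS
    have := hb n G M hM hM1 mate hg sv av hsa j w S hS
    have h2 := Nat.le_floor this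
    omega
  · push_cast
    have h1 : (n : ℝ) ^ 7 ≤ ((n : ℝ) + 1) ^ 7 := by
      apply pow_le_pow_left₀ (by positivity); linarith
    have h2 : (⌊8 * b ^ n⌋₊ : ℝ) ≤ 8 * b ^ n := Nat.floor_le (by positivity)
    have h3 : (⌊8 * b ^ n⌋₊ : ℝ) + 1 ≤ 9 * (max b 1) ^ n := by linarith
    have h4 : (0 : ℝ) ≤ (n : ℝ) ^ 7 := by positivity
    have h5 : (0 : ℝ) < ((n : ℝ) + 1) ^ 7 := by positivity
    calc 5000 * (n : ℝ) ^ 7 * ((⌊8 * b ^ n⌋₊ : ℝ) + 1)
        ≤ 5000 * ((n : ℝ) + 1) ^ 7 * (9 * (max b 1) ^ n) := by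
          apply mul_le_mul _ h3 (by positivity) (by positivity)
          linarith
      _ ≤ 50000 * (max b 1) ^ n * ((n : ℝ) + 1) ^ 7 := by
          have : 0 ≤ (max b 1) ^ n * ((n : ℝ) + 1) ^ 7 := by positivity
          nlinarith

/-- There is a word-RAM program `P` that counts all cycles in time `2^n poly(n)` on all graphs;
for all `d` and `δ > 0` in time `b^n poly(n)` with `b < 2` on all graphs with `δ n` disjoint near-twin
pairs; and for all `q` in time `b^n poly(n)` with `b < 2` on all graphs of linear neighbourhood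
complexity with constant `q`. -/
theorem result : ∃ (P : List Instr) (c k : ℕ) (C : ℝ),
    (∀ (n : ℕ) (G : SimpleGraph (Fin n)), 3 ≤ n →
      CountsAllCycles P c G (C * 2 ^ n * ((n : ℝ) + 1) ^ k)) ∧
    (∀ (d : ℕ) (δ : ℝ), 0 < δ → ∃ b : ℝ, 0 < b ∧ b < 2 ∧
      ∀ (n : ℕ) (G : SimpleGraph (Fin n)), 3 ≤ n → ManyNearTwins G d δ →
        CountsAllCycles P c G (C * b ^ n * ((n : ℝ) + 1) ^ k)) ∧
    ∀ q : ℕ, ∃ b : ℝ, 0 < b ∧ b < 2 ∧
      ∀ (n : ℕ) (G : SimpleGraph (Fin n)), 3 ≤ n → LinearTraces G q →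
        CountsAllCycles P c G (C * b ^ n * ((n : ℝ) + 1) ^ k) := by
  classical
  refine ⟨mainAll.comp.compile 0, 8, 7, 50000, ?_, ?_, ?_⟩
  · intro n G hn
    refine counts (GB := 2 ^ n) G hn ?_ (Nat.one_le_two_pow) _ ?_
    · intro _ _ _ _ _ _ _ S _
      refine (Finset.card_le_univ _).trans ?_
      rw [Fintype.card_finset, Fintype.card_fin]
    · push_cast
      have h1 : (n : ℝ) ^ 7 ≤ ((n : ℝ) + 1) ^ 7 := by
        apply pow_le_pow_left₀ (by positivity); linarith
      have h2 : (0 : ℝ) < 2 ^ n := by positivity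
      nlinarith [mul_le_mul_of_nonneg_right h1 h2.le, pow_pos (show (0 : ℝ) < (n : ℝ) + 1 by
        positivity) 7, mul_pos h2 (pow_pos (show (0 : ℝ) < (n : ℝ) + 1 by positivity) 7)]
  · intro d δ hδ
    obtain ⟨b, h0, h2, hb⟩ := near (d := d) hδ
    refine ⟨b, h0, h2, ?_⟩
    rintro n G hn ⟨M, hM1, hM2, hM3⟩
    exact hb n G hn M ⟨hM2, hM3⟩ hM1
  · intro q
    obtain ⟨d, hd⟩ := pairs_of_traces q
    obtain ⟨b, h0, h2, hb⟩ := near (d := d) (δ := 1 / 4) (by norm_num)
    refine ⟨b, h0, h2, ?_⟩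
    intro n G hn hG
    obtain ⟨M, hM, hc⟩ := hd n (by omega) G hG
    refine hb n G hn M hM ?_
    have : (n : ℝ) ≤ 4 * M.card := by exact_mod_cast hc
    linarith

end Pool.Agent.Results.MP_b35d54_lc.AllCyclesSparseTraces
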